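import Mathlib
import Pool.Agent.H87.Synth.Defs
import Pool.Agent.H93.GT.Main

/-!
MP_de9001_an, a dichotomy. For a relation `r` on `ℤ` and a level `k` let `c_r(k)` be the sum of
`|n| - min |class of n|` over all `n` in finite classes with `min |class of n| ≤ k < |n|`, and let
`w` be nondecreasing and positive. If `∑ 1/w = ∞`, all relations with `c_r ≤ w` have the synthesis
property. If `∑ 1/w < ∞`, the synthesis property is as complicated as it can be already among the
relations with finite classes, `||m| - |n|| ≤ √(w(min |m| |n|)/2)` for equivalent `m, n`, and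
`c_r ≤ w`: every analytic set reduces to its complement, and it is not Borel. The last clause is
the threshold for the growth of the classes.
-/

open MeasureTheory

namespace Pool.Agent.Results.MP_de9001_an.GrowthDichotomy

open Pool.Agent.H87.Synth

/-- the smallest absolute value in the class of `n` -/
noncomputable def low (r : Setoid ℤ) (n : ℤ) : ℕ := sInf {j | ∃ m, r n m ∧ m.natAbs = j}

/-- the total length of the finite classes of `r` over each level `k` is at most `w k`: the sum of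
`|n| - low r n` over the `n` in finite classes with `low r n ≤ k < |n|` -/
def Crossing (r : Setoid ℤ) (w : ℕ → ℝ) : Prop :=
  ∀ (k : ℕ) (F : Finset ℤ), (∀ n ∈ F, {j | r n j}.Finite ∧ low r n ≤ k ∧ k < n.natAbs) →
    ∑ n ∈ F, ((n.natAbs : ℝ) - low r n) ≤ w k

/-- the Boolean matrix `ρ` is the graph of `r` -/
def IsGraph (ρ : ℤ → ℤ → Bool) (r : Setoid ℤ) : Prop := ∀ m n, ρ m n = true ↔ r m n

theorem result :
    (∀ w : ℕ → ℝ, (∀ n, 0 < w n) → Monotone w →
      ((¬ Summable fun n => 1 / w n) → ∀ r : Setoid ℤ, Crossing r w → HasSynthesis r) ∧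
      ((Summable fun n => 1 / w n) →
        (∀ A : Set (ℕ → ℕ), AnalyticSet A →
          ∃ F : (ℕ → ℕ) → (ℤ → ℤ → Bool), Continuous F ∧ ∀ x, ∃ r : Setoid ℤ, IsGraph (F x) r ∧
            (∀ n, {m | r n m}.Finite) ∧
            (∀ m n, r m n → |(m.natAbs : ℝ) - n.natAbs| ≤ √(w (min m.natAbs n.natAbs) / 2)) ∧
            Crossing r w ∧ (x ∈ A ↔ ¬ HasSynthesis r)) ∧
        (¬ MeasurableSet {ρ : ℤ → ℤ → Bool | ∃ r : Setoid ℤ, IsGraph ρ r ∧
          (∀ n, {m | r n m}.Finite) ∧ Crossing r w ∧ HasSynthesis r}) ∧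
        ¬ MeasurableSet {ρ : ℤ → ℤ → Bool | ∃ r : Setoid ℤ, IsGraph ρ r ∧ Crossing r w ∧
          HasSynthesis r})) ∧
    ∀ d : ℕ → ℝ, (∀ n, 0 < d n) → Monotone d →
      ((∀ r : Setoid ℤ, (∀ m n, {k | r m k}.Finite → r m n →
          |(m.natAbs : ℝ) - n.natAbs| ≤ d (min m.natAbs n.natAbs)) → HasSynthesis r) ↔
        ¬ Summable fun n => 1 / d n ^ 2) :=
  ⟨Pool.Agent.H93.GT.gfin_all, Pool.Agent.H93.ET.mALL⟩

end Pool.Agent.Results.MP_de9001_an.GrowthDichotomy
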