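import Mathlib
import Pool.Agent.H87.Synth.Defs
import Pool.Agent.H87.Synth.Key
import Pool.Agent.H23.Synth.Interval

/-!
MP_de9001_an: every equivalence relation on the integers whose classes are order-convex (bounded
intervals, half-lines or all of `ℤ`) has the synthesis property.
-/

namespace Pool.Agent.Results.MP_de9001_an.IntervalClasses

open Pool.Agent.H87.Synth

theorem result (r : Setoid ℤ) (h : ∀ n, Set.OrdConnected {m | r n m}) : HasSynthesis r :=
  synthesis_of_approx r (Pool.Agent.H23.Synth.approx_interval r h)

end Pool.Agent.Results.MP_de9001_an.IntervalClasses
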