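import Mathlib
import Pool.Agent.H87.Synth.Defs
import Pool.Agent.H95.ILV.All

/-!
MP_de9001_an, invariant levels. `M` is an invariant level of an equivalence relation on the
integers if the set of the integers of absolute value less than `M` is a union of classes. If for
some `C` and arbitrarily large `X` all intervals `(x, x + C x / log x]`, `X ≤ x ≤ X ^ 2`, contain
an invariant level, the relation has the synthesis property. This is sharp up to a power of
`log log x`.
-/

namespace Pool.Agent.Results.MP_de9001_an.InvariantLevels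

open Pool.Agent.H87.Synth

/-- `M` is an invariant level of `r`: equivalent integers have both absolute value less than `M`,
or both not. -/
def Level (r : Setoid ℤ) (M : ℕ) : Prop := ∀ m n : ℤ, r m n → (m.natAbs < M ↔ n.natAbs < M)

theorem result :
    (∀ (r : Setoid ℤ) (C : ℝ),
      (∀ X₀ : ℝ, ∃ X : ℝ, X₀ ≤ X ∧ ∀ x : ℝ, X ≤ x → x ≤ X ^ 2 →
        ∃ M : ℕ, Level r M ∧ x < M ∧ (M : ℝ) ≤ x + C * x / Real.log x) → HasSynthesis r) ∧
    ∃ r : Setoid ℤ, (∀ n, {m | r n m}.Finite) ∧ ¬ HasSynthesis r ∧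
      ∃ x₀ : ℝ, ∀ x : ℝ, x₀ ≤ x → ∃ M : ℕ, Level r M ∧ x < M ∧
        (M : ℝ) ≤ x + x * Real.log (Real.log x) ^ 10 / Real.log x :=
  ⟨Pool.Agent.H95.ILV.a_MAIN.1, Pool.Agent.H95.ILV.a_MAIN.2.1⟩

end Pool.Agent.Results.MP_de9001_an.InvariantLevels
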