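import Mathlib
import Pool.Agent.H87.Synth.Defs
import Pool.Agent.H85.SC.Stmt
import Pool.Agent.H93.SY.Main2
import Pool.Agent.H26.SynTree.Main

/-!
# The synthesis property: an explicit criterion of the best possible form (MP_de9001_an)

(1) A criterion by a tree of finite objects. To every Boolean matrix `ρ` on `ℤ × ℤ` is attached an
explicit tree `tree ρ` of finite sequences `(L 0, f 0), …, (L (K - 1), f (K - 1))` of natural
numbers and of trigonometric polynomials with coefficients in `ℚ(i)` (see `Admissible`); whether a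
finite sequence belongs to `tree ρ` depends only on the finite piece `[-B, B] × [-B, B]` of `ρ`,
`B` the largest level. An equivalence relation `r` with matrix `ρ` has the synthesis property if
and only if `tree ρ` has no infinite branch.

(2) No simpler criterion exists: for every analytic subset `A` of the Baire space there is a
continuous map `F` into the involutions of `ℤ` such that `x ∈ A` if and only if the relation with
the classes `{m, F x m}` fails the synthesis property. So the set of the relations with the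
synthesis property is coanalytic complete, already for relations with classes of at most two
elements.

(3) In particular it is not a Borel set, also if all classes have at most `k` elements, or are
finite.

Proof of (1): helper26; of (2), (3): helpers 93, 87, 85, 35 and the provers of the boards.
-/

open MeasureTheory AddCircle

namespace Pool.Agent.Results.MP_de9001_an.TreeCriterion

open Pool.Agent.H87.Synth Pool.Agent.H85.SC

noncomputable section

/-- Trigonometric polynomials with coefficients in `ℚ(i)`; the pair `(a, b)` stands for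
`a + b i`. -/
abbrev Poly : Type := ℤ →₀ ℚ × ℚ

/-- The complex number `a + b i`. -/
def val (c : ℚ × ℚ) : ℂ := (c.1 : ℂ) + (c.2 : ℂ) * Complex.I

/-- The value of the trigonometric polynomial at the point `x` of the circle. -/
def ev (p : Poly) (x : Circ) : ℂ := ∑ n ∈ p.support, val (p n) * fourier n x

/-- The distance of two trigonometric polynomials in `L¹`. -/
def dist1 (p q : Poly) : ℝ := ∫ x : Circ, ‖ev p x - ev q x‖ ∂haarAddCircle

/-- The coefficients of `p` at equivalent points of `[-l, l]` differ by at most `ε`. -/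
def AlmostConst (ρ : ℤ → ℤ → Bool) (l : ℕ) (ε : ℝ) (p : Poly) : Prop :=
  ∀ m n : ℤ, |m| ≤ l → |n| ≤ l → ρ m n = true → ‖val (p m) - val (p n)‖ ≤ ε

/-- The coefficients of `p` at equivalent points of `[-l, l]` are equal. -/
def Const (ρ : ℤ → ℤ → Bool) (l : ℕ) (p : Poly) : Prop :=
  ∀ m n : ℤ, |m| ≤ l → |n| ≤ l → ρ m n = true → p m = p n

/-- `g` has distance at least `2` in `L¹` to all polynomials of degree at most `a` whose
coefficients at equivalent points of `[-b, b]` are equal. -/
def Far (ρ : ℤ → ℤ → Bool) (a b : ℕ) (g : Poly) : Prop :=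
  ∀ p : Poly, (∀ n : ℤ, (a : ℤ) < |n| → p n = 0) → Const ρ b p → 2 ≤ dist1 g p

/-- Two classes which meet `[-a, a]` and contain points `k` and `l` with `b < |k|, |l| ≤ c`
coincide. -/
def OneLong (ρ : ℤ → ℤ → Bool) (a b c : ℕ) : Prop :=
  ∀ m n k l : ℤ, |m| ≤ a → |n| ≤ a → (b : ℤ) < |k| → |k| ≤ c → (b : ℤ) < |l| → |l| ≤ c →
    ρ m k = true → ρ n l = true → ρ m n = true

/-- The first `K` terms of the levels `L 0 < L 1 < ⋯` and of the rational trigonometric
polynomials `f 0, f 1, …` are admissible for the Boolean matrix `ρ`. -/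
structure Admissible (ρ : ℤ → ℤ → Bool) (K : ℕ) (L : ℕ → ℕ) (f : ℕ → Poly) : Prop where
  increasing : ∀ i, i + 1 < K → L i < L (i + 1)
  close : ∀ i, i + 1 < K → dist1 (f (i + 1)) (f i) ≤ (1 / 2 : ℝ) ^ (i + 1)
  almostConst : ∀ i, i < K → AlmostConst ρ (L i) ((1 / 2 : ℝ) ^ i) (f i)
  far : ∀ i, i + 1 < K → Far ρ (L i) (L (i + 1)) (f 0)
  oneLong : ∀ i j, i + 1 < j → j < K → OneLong ρ (L i) (L (i + 1)) (L j)

/-- The tree `T(ρ)`: the finite sequences `(L 0, f 0), …, (L (K - 1), f (K - 1))` which are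
admissible for `ρ`. -/
def tree (ρ : ℤ → ℤ → Bool) : Set (List (ℕ × Poly)) :=
  {s | Admissible ρ s.length (fun i => (s.getD i (0, 0)).1) (fun i => (s.getD i (0, 0)).2)}

/-- `tree ρ` has an infinite branch. -/
def HasBranch (ρ : ℤ → ℤ → Bool) : Prop :=
  ∃ x : ℕ → ℕ × Poly, ∀ K, (List.ofFn fun i : Fin K => x i) ∈ tree ρ

/-- (1) Initial segments of elements of `tree ρ` are in `tree ρ`; membership of `s` depends only on
`ρ` on `[-B, B] × [-B, B]` if all levels of `s` are at most `B`; synthesis means: no branch. -/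
def Criterion : Prop :=
  (∀ (ρ : ℤ → ℤ → Bool) (s t : List (ℕ × Poly)), t <+: s → s ∈ tree ρ → t ∈ tree ρ) ∧
    (∀ (ρ ρ' : ℤ → ℤ → Bool) (s : List (ℕ × Poly)) (B : ℕ), (∀ x ∈ s, x.1 ≤ B) →
      (∀ m n : ℤ, |m| ≤ B → |n| ≤ B → ρ m n = ρ' m n) → (s ∈ tree ρ ↔ s ∈ tree ρ')) ∧
    ∀ (ρ : ℤ → ℤ → Bool) (r : Setoid ℤ), IsGraph ρ r → (HasSynthesis r ↔ ¬ HasBranch ρ)

/-- (2) The relations which fail synthesis form an analytic set, and every analytic set `A` is
reduced to it by a continuous map `F` into the involutions of `ℤ`. -/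
def Complete : Prop :=
  AnalyticSet NonSyn ∧ ∀ A : Set (ℕ → ℕ), AnalyticSet A →
    ∃ F : (ℕ → ℕ) → (ℤ → ℤ), Continuous F ∧ (∀ x n, F x (F x n) = n) ∧
      ∀ x, ∃ r : Setoid ℤ, (∀ m n, r m n ↔ n = m ∨ n = F x m) ∧ (x ∈ A ↔ ¬ HasSynthesis r)

/-- (3) The relations with synthesis and with classes of at most `k` elements do not form a Borel
set, `2 ≤ k ≤ ∞`, and those with synthesis and finite classes do not. -/
def NotBorel : Prop :=
  (∀ k : ℕ∞, 2 ≤ k → ¬ MeasurableSet {ρ : ℤ → ℤ → Bool | ∃ r : Setoid ℤ, IsGraph ρ r ∧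
    (∀ n, {m | r n m}.encard ≤ k) ∧ HasSynthesis r}) ∧
  ¬ MeasurableSet {ρ : ℤ → ℤ → Bool | ∃ r : Setoid ℤ, IsGraph ρ r ∧ FiniteClasses r ∧
    HasSynthesis r}

theorem coeFn_toL1 (p : Poly) :
    (Pool.Agent.H26.SynTree.toL1 p : Circ → ℂ) =ᵐ[haarAddCircle] ev p := by
  classical
  have key : ∀ (s : Finset ℤ), ((∑ n ∈ s, Pool.Agent.H26.SynTree.val (p n) •
      (fourierLp 1 n : L1) : L1) : Circ → ℂ) =ᵐ[haarAddCircle]
      fun x => ∑ n ∈ s, val (p n) * fourier n x := by
    intro s
    induction s using Finset.induction_on with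
    | empty =>
      filter_upwards [Lp.coeFn_zero ℂ 1 (haarAddCircle : Measure Circ)] with x hx
      rw [Finset.sum_empty, Finset.sum_empty, hx]
      rfl
    | insert a s ha ih =>
      rw [Finset.sum_insert ha]
      filter_upwards [Lp.coeFn_add (Pool.Agent.H26.SynTree.val (p a) • (fourierLp 1 a : L1))
        (∑ n ∈ s, Pool.Agent.H26.SynTree.val (p n) • (fourierLp 1 n : L1)),
        Lp.coeFn_smul (Pool.Agent.H26.SynTree.val (p a)) (fourierLp 1 a : L1),
        (coeFn_fourierLp (T := 2 * Real.pi) 1 a), ih] with x h1 h2 h3 h4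
      rw [h1, Finset.sum_insert ha, Pi.add_apply, h2, Pi.smul_apply, h3, h4]
      rfl
  exact key p.support

theorem dist1_eq (p q : Poly) :
    dist1 p q = ‖Pool.Agent.H26.SynTree.toL1 p - Pool.Agent.H26.SynTree.toL1 q‖ := by
  rw [L1.norm_eq_integral_norm]
  unfold dist1
  refine integral_congr_ae ?_
  filter_upwards [coeFn_toL1 p, coeFn_toL1 q, Lp.coeFn_sub (Pool.Agent.H26.SynTree.toL1 p)
    (Pool.Agent.H26.SynTree.toL1 q)] with x h1 h2 h3
  rw [h3, Pi.sub_apply, h1, h2]

theorem tree_eq (ρ : ℤ → ℤ → Bool) : tree ρ = Pool.Agent.H26.SynTree.tree ρ := by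
  ext s
  constructor
  · intro h
    refine ⟨h.increasing, fun i hi => ?_, h.almostConst, fun i hi p hp hc => ?_, h.oneLong⟩
    · rw [← dist1_eq]
      exact h.close i hi
    · rw [← dist1_eq]
      exact h.far i hi p hp hc
  · intro h
    refine ⟨h.inc, fun i hi => ?_, h.con, fun i hi p hp hc => ?_, h.one⟩
    · rw [dist1_eq]
      exact h.cau i hi
    · rw [dist1_eq]
      exact h.dst i hi p hp hc

/-- An explicit criterion for the synthesis property, and its optimality. -/
theorem result : Criterion ∧ Complete ∧ NotBorel := by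
  refine ⟨?_, ⟨Pool.Agent.H93.SY.final_pairs.1, Pool.Agent.H93.SY.final_pairs.2.1⟩,
    Pool.Agent.H93.SY.final_pairs.2.2.1, Pool.Agent.H93.SY.final_pairs.2.2.2⟩
  obtain ⟨h1, h2, h3⟩ := Pool.Agent.H26.SynTree.main
  refine ⟨fun ρ => ?_, fun ρ ρ' => ?_, fun ρ r hr => ?_⟩
  · rw [tree_eq]
    exact h1 ρ
  · rw [tree_eq, tree_eq]
    exact h2 ρ ρ'
  · unfold HasBranch
    rw [tree_eq]
    exact h3 ρ r hr

end

end Pool.Agent.Results.MP_de9001_an.TreeCriterion
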